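import Mathlib

/-!
# The Clifford spectrum of a tuple of matrices
-/

set_option autoImplicit false

namespace Pool.Agent.Q168.CS

open Matrix
open scoped TensorProduct

/-- the quadratic form `v ↦ ∑ j, v_j ^ 2` on `ℂ^d` -/
noncomputable def sumSq (d : ℕ) : QuadraticForm ℂ (Fin d → ℂ) :=
  QuadraticMap.weightedSumSquares ℂ (fun _ : Fin d => (1 : ℂ))

/-- the complex Clifford algebra `Cl(d)` -/
abbrev Cl (d : ℕ) : Type := CliffordAlgebra (sumSq d)

/-- the generators `e_1, …, e_d` of `Cl(d)` -/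
noncomputable def gen (d : ℕ) (j : Fin d) : Cl d :=
  CliffordAlgebra.ι (sumSq d) (Pi.single j 1)

/-- the element `L_λ(A_1, …, A_d) = ∑_j (A_j - λ_j I) ⊗ e_j` of `M_n(ℂ) ⊗ Cl(d)` -/
noncomputable def localizer {d n : ℕ} (A : Fin d → Matrix (Fin n) (Fin n) ℂ)
    (lam : EuclideanSpace ℝ (Fin d)) : Matrix (Fin n) (Fin n) ℂ ⊗[ℂ] Cl d :=
  ∑ j, (A j - (lam j : ℂ) • (1 : Matrix (Fin n) (Fin n) ℂ)) ⊗ₜ[ℂ] gen d j

/-- the Clifford spectrum: the set of all `λ ∈ ℝ^d` such that `L_λ(A_1, …, A_d)` is not invertible -/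
def cliffordSpectrum {d n : ℕ} (A : Fin d → Matrix (Fin n) (Fin n) ℂ) :
    Set (EuclideanSpace ℝ (Fin d)) :=
  {lam | ¬ IsUnit (localizer A lam)}

/-- one-manifolds: nonempty Hausdorff spaces in which every point has an open neighbourhood
homeomorphic to `ℝ` -/
def IsOneManifold (X : Type) [TopologicalSpace X] : Prop :=
  Nonempty X ∧ T2Space X ∧ ∀ x : X, ∃ U : Set X, IsOpen U ∧ x ∈ U ∧ Nonempty (U ≃ₜ ℝ)

end Pool.Agent.Q168.CS
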