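import Pool.Agent.Q168.CS.Defs

/-!
# A subset of `ℝ³` which is locally a horizontal circle is locally homeomorphic to `ℝ`
-/

set_option autoImplicit false

namespace Pool.Agent.Q168.CS

theorem circ_denom {X Y a b R : ℝ} (h1 : X ^ 2 + Y ^ 2 = R) (h2 : a ^ 2 + b ^ 2 = R)
    (hne : R + X * a + Y * b ≠ 0) (m : ℝ) (hm : m = (Y * a - X * b) / (R + X * a + Y * b)) :
    ((1 - m ^ 2) * a - 2 * m * b) / (1 + m ^ 2) = X ∧
      ((1 - m ^ 2) * b + 2 * m * a) / (1 + m ^ 2) = Y := by
  obtain ⟨D, hD⟩ : ∃ D, D = R + X * a + Y * b := ⟨_, rfl⟩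
  rw [← hD] at hne hm
  have hmD : m * D = Y * a - X * b := by
    rw [hm]
    field_simp
  have hm1 : (1 + m ^ 2) ≠ 0 := by positivity
  have key : (1 + m ^ 2) * D = 2 * R := by
    have : ((1 + m ^ 2) * D - 2 * R) * D = 0 := by
      have e1 : m ^ 2 * D ^ 2 = (Y * a - X * b) ^ 2 := by rw [← hmD]; ring
      have e2 : (Y * a - X * b) ^ 2 = (X ^ 2 + Y ^ 2) * (a ^ 2 + b ^ 2) - (X * a + Y * b) ^ 2 := by
        ring
      have e3 : X * a + Y * b = D - R := by rw [hD]; ring
      rw [h1, h2, e3] at e2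
      linear_combination e1 + e2
    have h3 := (mul_eq_zero.1 this).resolve_right hne
    linarith
  refine ⟨?_, ?_⟩
  · rw [div_eq_iff hm1]
    have : ((1 - m ^ 2) * a - 2 * m * b - X * (1 + m ^ 2)) * D = 0 := by
      linear_combination (-a - X) * key - 2 * b * hmD + 2 * a * hD + 2 * X * h2
    linarith [(mul_eq_zero.1 this).resolve_right hne]
  · rw [div_eq_iff hm1]
    have : ((1 - m ^ 2) * b + 2 * m * a - Y * (1 + m ^ 2)) * D = 0 := by
      linear_combination (-b - Y) * key + 2 * a * hmD + 2 * b * hD + 2 * Y * h2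
    linarith [(mul_eq_zero.1 this).resolve_right hne]

theorem circ_inv {a b R : ℝ} (hR : 0 < R) (h2 : a ^ 2 + b ^ 2 = R) (m : ℝ) :
    (((1 - m ^ 2) * a - 2 * m * b) / (1 + m ^ 2)) ^ 2 +
      (((1 - m ^ 2) * b + 2 * m * a) / (1 + m ^ 2)) ^ 2 = R ∧
    R + (((1 - m ^ 2) * a - 2 * m * b) / (1 + m ^ 2)) * a +
      (((1 - m ^ 2) * b + 2 * m * a) / (1 + m ^ 2)) * b ≠ 0 ∧
    ((((1 - m ^ 2) * b + 2 * m * a) / (1 + m ^ 2)) * a -
      (((1 - m ^ 2) * a - 2 * m * b) / (1 + m ^ 2)) * b) /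
      (R + (((1 - m ^ 2) * a - 2 * m * b) / (1 + m ^ 2)) * a +
      (((1 - m ^ 2) * b + 2 * m * a) / (1 + m ^ 2)) * b) = m := by
  have hm1 : 0 < 1 + m ^ 2 := by positivity
  have e1 : R + (((1 - m ^ 2) * a - 2 * m * b) / (1 + m ^ 2)) * a +
      (((1 - m ^ 2) * b + 2 * m * a) / (1 + m ^ 2)) * b = 2 * R / (1 + m ^ 2) := by
    field_simp
    rw [← h2]
    ring
  have e2 : (((1 - m ^ 2) * b + 2 * m * a) / (1 + m ^ 2)) * a -
      (((1 - m ^ 2) * a - 2 * m * b) / (1 + m ^ 2)) * b = 2 * R * m / (1 + m ^ 2) := by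
    field_simp
    rw [← h2]
    ring
  refine ⟨?_, ?_, ?_⟩
  · rw [div_pow, div_pow, ← add_div, div_eq_iff (by positivity)]
    rw [← h2]
    ring
  · rw [e1]
    positivity
  · rw [e1, e2]
    field_simp

/-- local charts -/
theorem chart (S : Set (EuclideanSpace ℝ (Fin 3))) (c1 c2 z R ε : ℝ) (hε : 0 < ε) (hR : 0 < R)
    (hS : ∀ p : EuclideanSpace ℝ (Fin 3), |p 2 - z| < ε →
      (p ∈ S ↔ ((p 0 - c1) ^ 2 + (p 1 - c2) ^ 2 = R ∧ p 2 = z)))
    (q : S) (hq : (q : EuclideanSpace ℝ (Fin 3)) 2 = z) :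
    ∃ U : Set S, IsOpen U ∧ q ∈ U ∧ Nonempty (U ≃ₜ ℝ) := by
  obtain ⟨q, hqS⟩ := q
  simp only at hq
  have hqz : |q 2 - z| < ε := by simpa [hq] using hε
  obtain ⟨a, ha⟩ : ∃ a, a = q 0 - c1 := ⟨_, rfl⟩
  obtain ⟨b, hb⟩ : ∃ b, b = q 1 - c2 := ⟨_, rfl⟩
  have hab : a ^ 2 + b ^ 2 = R := by
    rw [ha, hb]
    exact ((hS q hqz).1 hqS).1
  have hc : ∀ j : Fin 3, Continuous (fun p : S => (p : EuclideanSpace ℝ (Fin 3)) j) := fun j =>
    (EuclideanSpace.proj (𝕜 := ℝ) j).continuous.comp continuous_subtype_val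
  have hS1 : ∀ m : ℝ, !₂[c1 + ((1 - m ^ 2) * a - 2 * m * b) / (1 + m ^ 2),
      c2 + ((1 - m ^ 2) * b + 2 * m * a) / (1 + m ^ 2), z] ∈ S := by
    intro m
    rw [hS]
    · simpa using (circ_inv hR hab m).1
    · simpa using hε
  refine ⟨{p : S | |(p : EuclideanSpace ℝ (Fin 3)) 2 - z| < ε ∧
    R + ((p : EuclideanSpace ℝ (Fin 3)) 0 - c1) * a + ((p : EuclideanSpace ℝ (Fin 3)) 1 - c2) * b ≠ 0},
    ?_, ?_, ⟨?_⟩⟩
  · have h0 := hc 0
    have h1 := hc 1
    have h2 := hc 2
    refine IsOpen.inter ?_ ?_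
    · exact isOpen_lt ((h2.sub continuous_const).abs) continuous_const
    · exact isOpen_ne_fun (f := fun p : S => R + ((p : EuclideanSpace ℝ (Fin 3)) 0 - c1) * a +
        ((p : EuclideanSpace ℝ (Fin 3)) 1 - c2) * b)
        ((continuous_const.add ((h0.sub continuous_const).mul continuous_const)).add
          ((h1.sub continuous_const).mul continuous_const)) continuous_const
  · refine ⟨hqz, ?_⟩
    show R + (q 0 - c1) * a + (q 1 - c2) * b ≠ 0
    rw [← ha, ← hb]
    have : R + a * a + b * b = 2 * R := by rw [← hab]; ring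
    rw [this]
    positivity
  · refine
      { toFun := fun p => ((((p : S) : EuclideanSpace ℝ (Fin 3)) 1 - c2) * a -
            (((p : S) : EuclideanSpace ℝ (Fin 3)) 0 - c1) * b) /
          (R + (((p : S) : EuclideanSpace ℝ (Fin 3)) 0 - c1) * a +
            (((p : S) : EuclideanSpace ℝ (Fin 3)) 1 - c2) * b)
        invFun := fun m => ⟨⟨!₂[c1 + ((1 - m ^ 2) * a - 2 * m * b) / (1 + m ^ 2),
          c2 + ((1 - m ^ 2) * b + 2 * m * a) / (1 + m ^ 2), z], hS1 m⟩, ?_, ?_⟩
        left_inv := ?_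
        right_inv := ?_
        continuous_toFun := ?_
        continuous_invFun := ?_ }
    · simpa using hε
    · simpa using (circ_inv hR hab m).2.1
    · rintro ⟨⟨p, hpS⟩, hp1, hp2⟩
      simp only at hp1 hp2 ⊢
      have h3 := (hS p hp1).1 hpS
      obtain ⟨k1, k2⟩ := circ_denom h3.1 hab hp2 _ rfl
      apply Subtype.ext
      apply Subtype.ext
      simp only
      ext j
      fin_cases j
      · simp only [Fin.zero_eta, Matrix.cons_val]
        linarith [k1]
      · simp only [Fin.mk_one, Matrix.cons_val]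
        linarith [k2]
      · simp only [Fin.reduceFinMk, Matrix.cons_val]
        exact h3.2.symm
    · intro m
      have := (circ_inv hR hab m).2.2
      simpa using this
    · have h0 := (hc 0).comp (continuous_subtype_val (p := fun p : S =>
        p ∈ {p : S | |(p : EuclideanSpace ℝ (Fin 3)) 2 - z| < ε ∧
        R + ((p : EuclideanSpace ℝ (Fin 3)) 0 - c1) * a +
          ((p : EuclideanSpace ℝ (Fin 3)) 1 - c2) * b ≠ 0}))
      have h1 := (hc 1).comp (continuous_subtype_val (p := fun p : S =>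
        p ∈ {p : S | |(p : EuclideanSpace ℝ (Fin 3)) 2 - z| < ε ∧
        R + ((p : EuclideanSpace ℝ (Fin 3)) 0 - c1) * a +
          ((p : EuclideanSpace ℝ (Fin 3)) 1 - c2) * b ≠ 0}))
      refine Continuous.div ?_ ?_ (fun p => p.2.2)
      · exact (((h1.sub continuous_const).mul continuous_const).sub
          ((h0.sub continuous_const).mul continuous_const))
      · exact ((continuous_const.add ((h0.sub continuous_const).mul continuous_const)).add
          ((h1.sub continuous_const).mul continuous_const))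
    · refine Continuous.subtype_mk (Continuous.subtype_mk ?_ _) _
      refine (PiLp.continuous_toLp 2 _).comp (continuous_pi fun j => ?_)
      have hm : ∀ m : ℝ, (1 + m ^ 2) ≠ 0 := fun m => by positivity
      fin_cases j
      · simp only [Fin.zero_eta, Matrix.cons_val]
        exact continuous_const.add (Continuous.div (by fun_prop) (by fun_prop) hm)
      · simp only [Fin.mk_one, Matrix.cons_val]
        exact continuous_const.add (Continuous.div (by fun_prop) (by fun_prop) hm)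
      · simp only [Fin.reduceFinMk, Matrix.cons_val]
        exact continuous_const

end Pool.Agent.Q168.CS
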