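import Pool.Agent.Q168.CS.Four
import Pool.Agent.Q168.CS.Topo

/-!
# Three Hermitian `8 × 8` matrices whose Clifford spectrum is a pair of disjoint circles
-/

set_option autoImplicit false

namespace Pool.Agent.Q168.CS

open Matrix

/-- the radius of the two circles, `12 √6 / 49` -/
noncomputable def rad : ℝ := √(864 / 2401)

theorem rad_sq : rad ^ 2 = 864 / 2401 := Real.sq_sqrt (by norm_num)

/-- the translation vector -/
noncomputable def tv : Fin 3 → ℝ := ![rad, 0, 30 / 49]

/-- the three `8 × 8` matrices: block diagonal with blocks `tri j` and `tv j - tri j` -/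
noncomputable def oct (j : Fin 3) : Matrix (Fin 8) (Fin 8) ℂ :=
  (Matrix.fromBlocks (tri j) 0 0 ((tv j : ℂ) • (1 : Matrix (Fin 4) (Fin 4) ℂ) - tri j)).submatrix
    (finSumFinEquiv (m := 4) (n := 4)).symm (finSumFinEquiv (m := 4) (n := 4)).symm

theorem oct_herm (j : Fin 3) : (oct j).IsHermitian := by
  unfold oct
  refine Matrix.IsHermitian.submatrix ?_ _
  refine Matrix.IsHermitian.fromBlocks (tri_herm j) (by simp) ?_
  refine Matrix.IsHermitian.sub ?_ (tri_herm j)
  unfold Matrix.IsHermitian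
  rw [Matrix.conjTranspose_smul, Matrix.conjTranspose_one]
  simp

theorem spec_oct : cliffordSpectrum oct =
    {p : EuclideanSpace ℝ (Fin 3) | (p 0 ^ 2 + p 1 ^ 2 = 864 / 2401 ∧ p 2 = 30 / 49) ∨
      ((p 0 - √(864 / 2401)) ^ 2 + p 1 ^ 2 = 864 / 2401 ∧ p 2 = 0)} := by
  ext p
  rw [mem_iff]
  have h1 : Sing oct (fun j => p j) ↔ (Sing tri (fun j => p j) ∨ Sing tri (tv - fun j => p j)) := by
    rw [← sing_sub tri tv, ← sing_sum]
    exact sing_reindex (finSumFinEquiv (m := 4) (n := 4)) _ _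
  have h2 : (fun j => p j) = ![p 0, p 1, p 2] := by
    funext j
    fin_cases j <;> rfl
  have h3 : (tv - fun j => p j) = ![rad - p 0, 0 - p 1, 30 / 49 - p 2] := by
    funext j
    fin_cases j <;> simp [tv]
  rw [h1, h3, h2, sing_tri, sing_tri]
  have hr := rad_sq
  show _ ↔ ((p 0 ^ 2 + p 1 ^ 2 = 864 / 2401 ∧ p 2 = 30 / 49) ∨
      ((p 0 - rad) ^ 2 + p 1 ^ 2 = 864 / 2401 ∧ p 2 = 0))
  constructor
  · rintro ((⟨a, b, c⟩ | ⟨a, b⟩) | (⟨a, b, c⟩ | ⟨a, b⟩))
    · right
      refine ⟨?_, c⟩
      rw [a, b]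
      linarith
    · left
      exact ⟨a, b⟩
    · left
      have ha : p 0 = rad := by linarith
      have hb : p 1 = 0 := by linarith
      have hc : p 2 = 30 / 49 := by linarith
      refine ⟨?_, hc⟩
      rw [ha, hb]
      linarith
    · right
      refine ⟨?_, by linarith⟩
      rw [← a]
      ring
  · rintro (⟨a, b⟩ | ⟨a, b⟩)
    · left
      right
      exact ⟨a, b⟩
    · right
      right
      refine ⟨?_, by rw [b]; norm_num⟩
      rw [← a]
      ring

theorem oneManifold_oct : IsOneManifold (cliffordSpectrum oct) := by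
  have hmem : ∀ p : EuclideanSpace ℝ (Fin 3), p ∈ cliffordSpectrum oct ↔
      ((p 0 ^ 2 + p 1 ^ 2 = 864 / 2401 ∧ p 2 = 30 / 49) ∨
      ((p 0 - rad) ^ 2 + p 1 ^ 2 = 864 / 2401 ∧ p 2 = 0)) := by
    intro p
    rw [spec_oct]
    exact Iff.rfl
  refine ⟨⟨⟨!₂[(0 : ℝ), 0, 0], ?_⟩⟩, inferInstance, ?_⟩
  · rw [hmem]
    right
    have := rad_sq
    simp [this]
  · intro q
    rcases (hmem q).1 q.2 with ⟨h1, h2⟩ | ⟨h1, h2⟩
    · refine chart (cliffordSpectrum oct) 0 0 (30 / 49) (864 / 2401) (1 / 2) (by norm_num)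
        (by norm_num) ?_ q h2
      intro p hp
      rw [hmem, sub_zero, sub_zero]
      constructor
      · rintro (h | ⟨_, h⟩)
        · exact h
        · rw [h] at hp
          norm_num at hp
      · intro h
        left
        exact h
    · refine chart (cliffordSpectrum oct) rad 0 0 (864 / 2401) (1 / 2) (by norm_num)
        (by norm_num) ?_ q h2
      intro p hp
      rw [hmem, sub_zero]
      constructor
      · rintro (⟨_, h⟩ | h)
        · rw [h] at hp
          norm_num at hp
        · exact h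
      · intro h
        right
        exact h

end Pool.Agent.Q168.CS
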