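import Pool.Agent.Q168.CS.Kern

/-!
# A triple of `4 × 4` matrices
-/

set_option autoImplicit false
set_option linter.unusedSimpArgs false

namespace Pool.Agent.Q168.CS

open Matrix

/-- the triple -/
def tri : Fin 3 → Matrix (Fin 4) (Fin 4) ℂ :=
  ![!![0, 0, 2, 0; 0, 0, 0, 1; 2, 0, 0, 0; 0, 1, 0, 0],
    !![0, 0, 0, 2; 0, 0, -1, 0; 0, -1, 0, 0; 2, 0, 0, 0],
    !![4, 0, 0, 0; 0, -1, 0, 0; 0, 0, 0, 0; 0, 0, 0, 0]]

theorem tri_herm (j : Fin 3) : (tri j).IsHermitian := by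
  unfold Matrix.IsHermitian
  ext a b
  fin_cases j <;> fin_cases a <;> fin_cases b <;> simp [tri, Matrix.conjTranspose_apply]

theorem tri0_mulVec (w : Fin 4 → ℂ) : tri 0 *ᵥ w = ![2 * w 2, w 3, 2 * w 0, w 1] := by
  funext i
  fin_cases i <;> simp [tri, Matrix.mulVec, dotProduct, Fin.sum_univ_four]

theorem tri1_mulVec (w : Fin 4 → ℂ) : tri 1 *ᵥ w = ![2 * w 3, -w 2, -w 1, 2 * w 0] := by
  funext i
  fin_cases i <;> simp [tri, Matrix.mulVec, dotProduct, Fin.sum_univ_four]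

theorem tri2_mulVec (w : Fin 4 → ℂ) : tri 2 *ᵥ w = ![4 * w 0, -w 1, 0, 0] := by
  funext i
  fin_cases i <;> simp [tri, Matrix.mulVec, dotProduct, Fin.sum_univ_four]

/-- the eight scalar equations -/
theorem sing_tri_iff (x y z : ℝ) : Sing tri ![x, y, z] ↔ ∃ s0 s1 p0 p1 a0 a1 b0 b1 : ℂ,
    ¬ (s0 = 0 ∧ s1 = 0 ∧ p0 = 0 ∧ p1 = 0 ∧ a0 = 0 ∧ a1 = 0 ∧ b0 = 0 ∧ b1 = 0) ∧
    2 * s1 + Complex.I * p1 - z * a0 - (x - Complex.I * y) * a1 = 0 ∧
    2 * s0 - Complex.I * p0 - (x + Complex.I * y) * a0 + z * a1 = 0 ∧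
    -(2 * Complex.I * s1) + p1 - z * b0 - (x - Complex.I * y) * b1 = 0 ∧
    2 * Complex.I * s0 + p0 - (x + Complex.I * y) * b0 + z * b1 = 0 ∧
    (4 - z) * s0 - (x - Complex.I * y) * s1 + 2 * a1 - 2 * Complex.I * b1 = 0 ∧
    -((4 - z) * s1) - (x + Complex.I * y) * s0 + 2 * a0 + 2 * Complex.I * b0 = 0 ∧
    (-1 - z) * p0 - (x - Complex.I * y) * p1 + b1 + Complex.I * a1 = 0 ∧
    (1 + z) * p1 - (x + Complex.I * y) * p0 + b0 - Complex.I * a0 = 0 := by
  constructor
  · rintro ⟨u, v, huv, e0, e1⟩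
    have f := congrFun e0
    have g := congrFun e1
    have f0 := f 0
    have f1 := f 1
    have f2 := f 2
    have f3 := f 3
    have g0 := g 0
    have g1 := g 1
    have g2 := g 2
    have g3 := g 3
    simp only [tri0_mulVec, tri1_mulVec, tri2_mulVec, Pi.add_apply, Pi.sub_apply, Pi.smul_apply,
      smul_eq_mul, Pi.zero_apply, Matrix.cons_val] at f0 f1 f2 f3 g0 g1 g2 g3
    refine ⟨u 0, v 0, u 1, v 1, u 2, v 2, u 3, v 3, ?_, ?_, ?_, ?_, ?_, ?_, ?_, ?_, ?_⟩
    · rintro ⟨h0, h1, h2, h3, h4, h5, h6, h7⟩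
      apply huv
      refine ⟨?_, ?_⟩
      · funext i
        fin_cases i <;> assumption
      · funext i
        fin_cases i <;> assumption
    · linear_combination f2
    · linear_combination g2
    · linear_combination f3
    · linear_combination g3
    · linear_combination f0
    · linear_combination g0
    · linear_combination f1
    · linear_combination g1
  · rintro ⟨s0, s1, p0, p1, a0, a1, b0, b1, hne, f2, g2, f3, g3, f0, g0, f1, g1⟩
    refine ⟨![s0, p0, a0, b0], ![s1, p1, a1, b1], ?_, ?_, ?_⟩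
    · rintro ⟨h0, h1⟩
      exact hne ⟨congrFun h0 0, congrFun h1 0, congrFun h0 1, congrFun h1 1, congrFun h0 2,
        congrFun h1 2, congrFun h0 3, congrFun h1 3⟩
    · funext i
      fin_cases i
      · simp only [tri0_mulVec, tri1_mulVec, tri2_mulVec, Pi.add_apply, Pi.sub_apply,
          Pi.smul_apply, smul_eq_mul, Pi.zero_apply, Matrix.cons_val, Fin.zero_eta, Fin.mk_one,
          Fin.reduceFinMk]
        linear_combination f0
      · simp only [tri0_mulVec, tri1_mulVec, tri2_mulVec, Pi.add_apply, Pi.sub_apply,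
          Pi.smul_apply, smul_eq_mul, Pi.zero_apply, Matrix.cons_val, Fin.zero_eta, Fin.mk_one,
          Fin.reduceFinMk]
        linear_combination f1
      · simp only [tri0_mulVec, tri1_mulVec, tri2_mulVec, Pi.add_apply, Pi.sub_apply,
          Pi.smul_apply, smul_eq_mul, Pi.zero_apply, Matrix.cons_val, Fin.zero_eta, Fin.mk_one,
          Fin.reduceFinMk]
        linear_combination f2
      · simp only [tri0_mulVec, tri1_mulVec, tri2_mulVec, Pi.add_apply, Pi.sub_apply,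
          Pi.smul_apply, smul_eq_mul, Pi.zero_apply, Matrix.cons_val, Fin.zero_eta, Fin.mk_one,
          Fin.reduceFinMk]
        linear_combination f3
    · funext i
      fin_cases i
      · simp only [tri0_mulVec, tri1_mulVec, tri2_mulVec, Pi.add_apply, Pi.sub_apply,
          Pi.smul_apply, smul_eq_mul, Pi.zero_apply, Matrix.cons_val, Fin.zero_eta, Fin.mk_one,
          Fin.reduceFinMk]
        linear_combination g0
      · simp only [tri0_mulVec, tri1_mulVec, tri2_mulVec, Pi.add_apply, Pi.sub_apply,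
          Pi.smul_apply, smul_eq_mul, Pi.zero_apply, Matrix.cons_val, Fin.zero_eta, Fin.mk_one,
          Fin.reduceFinMk]
        linear_combination g1
      · simp only [tri0_mulVec, tri1_mulVec, tri2_mulVec, Pi.add_apply, Pi.sub_apply,
          Pi.smul_apply, smul_eq_mul, Pi.zero_apply, Matrix.cons_val, Fin.zero_eta, Fin.mk_one,
          Fin.reduceFinMk]
        linear_combination g2
      · simp only [tri0_mulVec, tri1_mulVec, tri2_mulVec, Pi.add_apply, Pi.sub_apply,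
          Pi.smul_apply, smul_eq_mul, Pi.zero_apply, Matrix.cons_val, Fin.zero_eta, Fin.mk_one,
          Fin.reduceFinMk]
        linear_combination g3

/-- the kernel equations have only the zero solution if `W W' + Z² ≠ 0` and the determinant
factor does not vanish -/
theorem elim (W W' Z s0 s1 p0 p1 a0 a1 b0 b1 rho : ℂ) (hrho : rho = W * W' + Z ^ 2) (hr0 : rho ≠ 0)
    (hD : rho ^ 2 * ((rho * (4 + 3 * Z - rho) - 10 * Z ^ 2) ^ 2 +
      (5 * rho - 6 * Z) ^ 2 * (W * W')) ≠ 0)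
    (h1 : 2 * s1 + Complex.I * p1 - Z * a0 - W' * a1 = 0)
    (h2 : 2 * s0 - Complex.I * p0 - W * a0 + Z * a1 = 0)
    (h3 : -(2 * Complex.I * s1) + p1 - Z * b0 - W' * b1 = 0)
    (h4 : 2 * Complex.I * s0 + p0 - W * b0 + Z * b1 = 0)
    (h5 : (4 - Z) * s0 - W' * s1 + 2 * a1 - 2 * Complex.I * b1 = 0)
    (h6 : -((4 - Z) * s1) - W * s0 + 2 * a0 + 2 * Complex.I * b0 = 0)
    (h7 : (-1 - Z) * p0 - W' * p1 + b1 + Complex.I * a1 = 0)
    (h8 : (1 + Z) * p1 - W * p0 + b0 - Complex.I * a0 = 0) :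
    s0 = 0 ∧ s1 = 0 ∧ p0 = 0 ∧ p1 = 0 ∧ a0 = 0 ∧ a1 = 0 ∧ b0 = 0 ∧ b1 = 0 := by
  obtain ⟨P, hP⟩ : ∃ P, P = a0 + Complex.I * b0 := ⟨_, rfl⟩
  obtain ⟨Q, hQ⟩ : ∃ Q, Q = a0 - Complex.I * b0 := ⟨_, rfl⟩
  obtain ⟨N, hN⟩ : ∃ N, N = a1 - Complex.I * b1 := ⟨_, rfl⟩
  obtain ⟨M, hM⟩ : ∃ M, M = a1 + Complex.I * b1 := ⟨_, rfl⟩
  have hI := Complex.I_sq
  have E1 : 4 * s1 + 2 * Complex.I * p1 - Z * P - W' * M = 0 := by
    rw [hP, hM]
    linear_combination h1 + Complex.I * h3 + 2 * s1 * hI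
  have E2 : -(W * P) + Z * M = 0 := by
    rw [hP, hM]
    linear_combination h2 + Complex.I * h4 - 2 * s0 * hI
  have E3 : 4 * s0 - 2 * Complex.I * p0 - W * Q + Z * N = 0 := by
    rw [hQ, hN]
    linear_combination h2 - Complex.I * h4 + 2 * s0 * hI
  have E4 : -(Z * Q) - W' * N = 0 := by
    rw [hQ, hN]
    linear_combination h1 - Complex.I * h3 - 2 * s1 * hI
  have E5 : (4 - Z) * s0 - W' * s1 + 2 * N = 0 := by
    rw [hN]
    linear_combination h5
  have E6 : -((4 - Z) * s1) - W * s0 + 2 * P = 0 := by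
    rw [hP]
    linear_combination h6
  have E7 : (-1 - Z) * p0 - W' * p1 + Complex.I * N = 0 := by
    rw [hN]
    linear_combination h7 - b1 * hI
  have E8 : (1 + Z) * p1 - W * p0 - Complex.I * P = 0 := by
    rw [hP]
    linear_combination h8 - b0 * hI
  have KP : rho * P - Z * (4 * s1 + 2 * Complex.I * p1) = 0 := by
    rw [hrho]
    linear_combination -Z * E1 - W' * E2
  have KN : rho * N + Z * (4 * s0 - 2 * Complex.I * p0) = 0 := by
    rw [hrho]
    linear_combination Z * E3 - W * E4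
  obtain ⟨al, hal⟩ : ∃ al, al = rho * (4 - Z) - 8 * Z := ⟨_, rfl⟩
  obtain ⟨be, hbe⟩ : ∃ be, be = rho * (1 + Z) + 2 * Z := ⟨_, rfl⟩
  have X0 : al * s0 - rho * W' * s1 + Complex.I * (4 * Z) * p0 = 0 := by
    rw [hal]
    linear_combination rho * E5 - 2 * KN
  have X1 : al * s1 + rho * W * s0 - Complex.I * (4 * Z) * p1 = 0 := by
    rw [hal]
    linear_combination -rho * E6 + 2 * KP
  have Y0 : be * p0 + rho * W' * p1 + Complex.I * (4 * Z) * s0 = 0 := by
    rw [hbe]
    linear_combination -rho * E7 + Complex.I * KN + 2 * Z * p0 * hI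
  have Y1 : be * p1 - rho * W * p0 - Complex.I * (4 * Z) * s1 = 0 := by
    rw [hbe]
    linear_combination rho * E8 + Complex.I * KP + 2 * Z * p1 * hI
  obtain ⟨F, hF⟩ : ∃ F, F = al * be + (4 * Z) ^ 2 - rho ^ 2 * (W * W') := ⟨_, rfl⟩
  obtain ⟨G, hG⟩ : ∃ G, G = al + be := ⟨_, rfl⟩
  have c0 : F * s0 - G * rho * W' * s1 = 0 := by
    rw [hF, hG]
    linear_combination be * X0 - rho * W' * X1 - Complex.I * (4 * Z) * Y0 + (4 * Z) ^ 2 * s0 * hI
  have c1 : F * s1 + G * rho * W * s0 = 0 := by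
    rw [hF, hG]
    linear_combination be * X1 + rho * W * X0 + Complex.I * (4 * Z) * Y1 + (4 * Z) ^ 2 * s1 * hI
  have d0 : F * p0 + G * rho * W' * p1 = 0 := by
    rw [hF, hG]
    linear_combination al * Y0 + rho * W' * Y1 - Complex.I * (4 * Z) * X0 + (4 * Z) ^ 2 * p0 * hI
  have d1 : F * p1 - G * rho * W * p0 = 0 := by
    rw [hF, hG]
    linear_combination al * Y1 - rho * W * Y0 + Complex.I * (4 * Z) * X1 + (4 * Z) ^ 2 * p1 * hI
  have hDD : F ^ 2 + G ^ 2 * rho ^ 2 * (W * W') ≠ 0 := by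
    have e1 : F = rho * (rho * (4 + 3 * Z - rho) - 10 * Z ^ 2) := by
      rw [hF, hal, hbe, hrho]
      ring
    have e2 : G = 5 * rho - 6 * Z := by
      rw [hG, hal, hbe]
      ring
    intro h
    apply hD
    rw [← h, e1, e2]
    ring
  have hs0 : s0 = 0 := by
    have : (F ^ 2 + G ^ 2 * rho ^ 2 * (W * W')) * s0 = 0 := by
      linear_combination F * c0 + G * rho * W' * c1
    exact (mul_eq_zero.1 this).resolve_left hDD
  have hs1 : s1 = 0 := by
    have : (F ^ 2 + G ^ 2 * rho ^ 2 * (W * W')) * s1 = 0 := by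
      linear_combination F * c1 - G * rho * W * c0
    exact (mul_eq_zero.1 this).resolve_left hDD
  have hp0 : p0 = 0 := by
    have : (F ^ 2 + G ^ 2 * rho ^ 2 * (W * W')) * p0 = 0 := by
      linear_combination F * d0 - G * rho * W' * d1
    exact (mul_eq_zero.1 this).resolve_left hDD
  have hp1 : p1 = 0 := by
    have : (F ^ 2 + G ^ 2 * rho ^ 2 * (W * W')) * p1 = 0 := by
      linear_combination F * d1 + G * rho * W * d0
    exact (mul_eq_zero.1 this).resolve_left hDD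
  subst hs0 hs1 hp0 hp1
  have hN0 : N = 0 := by linear_combination (1 / 2 : ℂ) * E5
  have hP0 : P = 0 := by linear_combination (1 / 2 : ℂ) * E6
  have hQ0 : Q = 0 := by
    have : rho * Q = 0 := by
      rw [hrho]
      linear_combination -W' * E3 - Z * E4
    exact (mul_eq_zero.1 this).resolve_left hr0
  have hM0 : M = 0 := by
    have : rho * M = 0 := by
      rw [hrho]
      linear_combination -W * E1 + Z * E2
    exact (mul_eq_zero.1 this).resolve_left hr0
  have hI0 := Complex.I_ne_zero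
  refine ⟨rfl, rfl, rfl, rfl, ?_, ?_, ?_, ?_⟩
  · linear_combination (1 / 2 : ℂ) * (hP0 - hP + hQ0 - hQ)
  · linear_combination (1 / 2 : ℂ) * (hN0 - hN + hM0 - hM)
  · have : Complex.I * b0 = 0 := by linear_combination (1 / 2 : ℂ) * (hP0 - hP - hQ0 + hQ)
    exact (mul_eq_zero.1 this).resolve_left hI0
  · have : Complex.I * b1 = 0 := by linear_combination (1 / 2 : ℂ) * (hM0 - hM - hN0 + hN)
    exact (mul_eq_zero.1 this).resolve_left hI0

theorem real_part (x y z : ℝ) (h0 : ¬ (x = 0 ∧ y = 0 ∧ z = 0))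
    (h1 : ¬ (x ^ 2 + y ^ 2 = 864 / 2401 ∧ z = 30 / 49)) (rho : ℝ) (hrho : rho = x ^ 2 + y ^ 2 + z ^ 2) :
    rho ≠ 0 ∧ rho ^ 2 * ((rho * (4 + 3 * z - rho) - 10 * z ^ 2) ^ 2 +
      (5 * rho - 6 * z) ^ 2 * (x ^ 2 + y ^ 2)) ≠ 0 := by
  have hr : rho ≠ 0 := by
    intro h
    apply h0
    rw [hrho] at h
    refine ⟨?_, ?_, ?_⟩ <;> nlinarith [sq_nonneg x, sq_nonneg y, sq_nonneg z]
  refine ⟨hr, ?_⟩
  intro h
  have h2 := (mul_eq_zero.1 h).resolve_left (pow_ne_zero 2 hr)
  have hq : rho * (4 + 3 * z - rho) - 10 * z ^ 2 = 0 := by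
    have : (rho * (4 + 3 * z - rho) - 10 * z ^ 2) ^ 2 = 0 := by
      nlinarith [sq_nonneg (rho * (4 + 3 * z - rho) - 10 * z ^ 2),
        mul_nonneg (sq_nonneg (5 * rho - 6 * z)) (add_nonneg (sq_nonneg x) (sq_nonneg y))]
    exact pow_eq_zero_iff (two_ne_zero) |>.1 this
  have hg : (5 * rho - 6 * z) ^ 2 * (x ^ 2 + y ^ 2) = 0 := by
    rw [hq] at h2
    linarith
  rcases mul_eq_zero.1 hg with hg | hg
  · have hg' : 5 * rho - 6 * z = 0 := pow_eq_zero_iff (two_ne_zero) |>.1 hg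
    have hz : z ≠ 0 := by
      intro hz
      apply hr
      rw [hz] at hg'
      linarith
    have hrz : rho = 6 / 5 * z := by linarith
    have h3 : z * (120 - 196 * z) = 0 := by
      rw [hrz] at hq
      nlinarith
    have h4 := (mul_eq_zero.1 h3).resolve_left hz
    have hz1 : z = 30 / 49 := by linarith
    apply h1
    refine ⟨?_, hz1⟩
    have : x ^ 2 + y ^ 2 = rho - z ^ 2 := by linarith
    rw [this, hrz, hz1]
    norm_num
  · have hrz : rho = z ^ 2 := by linarith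
    have hz : z ≠ 0 := by
      intro hz
      apply hr
      rw [hrz, hz]
      norm_num
    rw [hrz] at hq
    have h3 : z ^ 2 * (z ^ 2 - 3 * z + 6) = 0 := by linarith
    have h4 := (mul_eq_zero.1 h3).resolve_left (pow_ne_zero 2 hz)
    nlinarith [sq_nonneg (z - 3 / 2)]

theorem sing_tri (x y z : ℝ) : Sing tri ![x, y, z] ↔
    ((x = 0 ∧ y = 0 ∧ z = 0) ∨ (x ^ 2 + y ^ 2 = 864 / 2401 ∧ z = 30 / 49)) := by
  rw [sing_tri_iff]
  constructor
  · rintro ⟨s0, s1, p0, p1, a0, a1, b0, b1, hne, h1, h2, h3, h4, h5, h6, h7, h8⟩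
    by_contra hcon
    rw [not_or] at hcon
    obtain ⟨hr, hD⟩ := real_part x y z hcon.1 hcon.2 _ rfl
    apply hne
    have hWW : ((x : ℂ) + Complex.I * y) * (x - Complex.I * y) = x ^ 2 + y ^ 2 := by
      linear_combination -(y : ℂ) ^ 2 * Complex.I_sq
    refine elim (x + Complex.I * y) (x - Complex.I * y) z s0 s1 p0 p1 a0 a1 b0 b1
      ((x ^ 2 + y ^ 2 + z ^ 2 : ℝ) : ℂ) ?_ ?_ ?_ h1 h2 h3 h4 h5 h6 h7 h8
    · rw [hWW]
      push_cast
      ring
    · exact_mod_cast hr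
    · rw [hWW]
      exact_mod_cast hD
  · rintro (⟨hx, hy, hz⟩ | ⟨hr, hz⟩)
    · subst hx hy hz
      refine ⟨1, 0, -(2 * Complex.I), 0, 0, -2, 0, 0, by simp, ?_, ?_, ?_, ?_, ?_, ?_, ?_, ?_⟩
      · simp
      · simp
        linear_combination 2 * Complex.I_sq
      · simp
      · simp
      · simp
        norm_num
      · simp
      · simp
        ring
      · simp
    · have hrC : (x : ℂ) ^ 2 + (y : ℂ) ^ 2 = 864 / 2401 := by
        have := congrArg (fun r : ℝ => (r : ℂ)) hr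
        push_cast at this
        exact this
      have hzC : (z : ℂ) = 30 / 49 := by
        rw [hz]
        push_cast
        rfl
      rw [hzC]
      obtain ⟨W, hW⟩ : ∃ W, W = (x : ℂ) + Complex.I * y := ⟨_, rfl⟩
      obtain ⟨W', hW'⟩ : ∃ W', W' = (x : ℂ) - Complex.I * y := ⟨_, rfl⟩
      have hWW : W * W' = 864 / 2401 := by
        rw [hW, hW', ← hrC]
        linear_combination -(y : ℂ) ^ 2 * Complex.I_sq
      rw [← hW, ← hW']
      refine ⟨1, 0, -(241 / 245 * Complex.I), -(3 / 10 * Complex.I * W),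
        (W / 2 + 83 / 30 * W') / 2, (-83 / 49 + 49 / 60 * W ^ 2) / 2,
        -(Complex.I * (W / 2 - 83 / 30 * W') / 2), -(Complex.I * (49 / 60 * W ^ 2 + 83 / 49) / 2),
        by simp, ?_, ?_, ?_, ?_, ?_, ?_, ?_, ?_⟩
      · linear_combination -(3 / 10) * W * Complex.I_sq - 49 / 120 * W * hWW
      · linear_combination 241 / 245 * Complex.I_sq - 83 / 60 * hWW
      · linear_combination Complex.I * (49 / 120) * W * hWW
      · linear_combination -Complex.I * (83 / 60) * hWW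
      · linear_combination (49 / 60 * W ^ 2 + 83 / 49) * Complex.I_sq
      · linear_combination -(W / 2 - 83 / 30 * W') * Complex.I_sq
      · linear_combination Complex.I * (3 / 10) * hWW
      · ring

end Pool.Agent.Q168.CS
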