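import Pool.Agent.Q168.CS.Rep

/-!
# Kernel description of the Clifford spectrum for `d = 3`
-/

set_option autoImplicit false

namespace Pool.Agent.Q168.CS

open Matrix
open scoped TensorProduct Kronecker

/-- `λ` is singular for `(B_0, B_1, B_2)`: there is a nonzero kernel vector `(u, v)` of
`∑ (B_j - λ_j) ⊗ σ_j` -/
def Sing {ι : Type} [Fintype ι] (B : Fin 3 → Matrix ι ι ℂ) (lam : Fin 3 → ℝ) : Prop :=
  ∃ u v : ι → ℂ, ¬ (u = 0 ∧ v = 0) ∧
    (B 0 *ᵥ v - (lam 0 : ℂ) • v) - Complex.I • (B 1 *ᵥ v - (lam 1 : ℂ) • v) +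
      (B 2 *ᵥ u - (lam 2 : ℂ) • u) = 0 ∧
    (B 0 *ᵥ u - (lam 0 : ℂ) • u) + Complex.I • (B 1 *ᵥ u - (lam 1 : ℂ) • u) -
      (B 2 *ᵥ v - (lam 2 : ℂ) • v) = 0

theorem mulVec_kron_eq {n : ℕ} (B : Fin 3 → Matrix (Fin n) (Fin n) ℂ) (lam : Fin 3 → ℝ)
    (u v : Fin n → ℂ) (i : Fin n) (k : Fin 2) :
    ((∑ j, (B j - (lam j : ℂ) • (1 : Matrix (Fin n) (Fin n) ℂ)) ⊗ₖ pauli j) *ᵥ
      (fun p : Fin n × Fin 2 => (![u p.1, v p.1] : Fin 2 → ℂ) p.2)) (i, k) =
    (![((B 0 *ᵥ v - (lam 0 : ℂ) • v) - Complex.I • (B 1 *ᵥ v - (lam 1 : ℂ) • v) +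
      (B 2 *ᵥ u - (lam 2 : ℂ) • u)) i,
      ((B 0 *ᵥ u - (lam 0 : ℂ) • u) + Complex.I • (B 1 *ᵥ u - (lam 1 : ℂ) • u) -
      (B 2 *ᵥ v - (lam 2 : ℂ) • v)) i] : Fin 2 → ℂ) k := by
  have key : ∀ (C : Matrix (Fin n) (Fin n) ℂ) (c : ℂ) (w : Fin n → ℂ),
      (C *ᵥ w) i - c * w i = ∑ x, (C i x - c * (1 : Matrix (Fin n) (Fin n) ℂ) i x) * w x := by
    intro C c w
    simp only [Matrix.mulVec, dotProduct, sub_mul, Finset.sum_sub_distrib]
    congr 1
    simp [Matrix.one_apply]
  simp only [Pi.add_apply, Pi.sub_apply, Pi.smul_apply, smul_eq_mul]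
  simp only [key]
  simp only [Matrix.mulVec, dotProduct, Fintype.sum_prod_type, Fin.sum_univ_two, Matrix.sum_apply,
    Fin.sum_univ_three, Matrix.kroneckerMap_apply, Matrix.sub_apply, Matrix.smul_apply, smul_eq_mul]
  fin_cases k
  · simp only [pauli, Finset.mul_sum, ← Finset.sum_sub_distrib, ← Finset.sum_add_distrib]
    refine Finset.sum_congr rfl fun x _ => ?_
    simp
    ring
  · simp only [pauli, Finset.mul_sum, ← Finset.sum_sub_distrib, ← Finset.sum_add_distrib]
    refine Finset.sum_congr rfl fun x _ => ?_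
    simp
    ring

theorem mem_iff {n : ℕ} (B : Fin 3 → Matrix (Fin n) (Fin n) ℂ) (lam : EuclideanSpace ℝ (Fin 3)) :
    lam ∈ cliffordSpectrum B ↔ Sing B (fun j => lam j) := by
  show ¬ IsUnit (localizer B lam) ↔ _
  rw [isUnit_localizer_iff]
  have h1 : IsUnit (pauliLoc B lam) ↔
      IsUnit (∑ j, (B j - (lam j : ℂ) • (1 : Matrix (Fin n) (Fin n) ℂ)) ⊗ₖ pauli j) := by
    have h2 : Matrix.kroneckerAlgEquiv (Fin n) (Fin 2) ℂ (pauliLoc B lam) =
        ∑ j, (B j - (lam j : ℂ) • (1 : Matrix (Fin n) (Fin n) ℂ)) ⊗ₖ pauli j := by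
      unfold pauliLoc
      rw [map_sum]
      refine Finset.sum_congr rfl fun j _ => ?_
      simp
    rw [← h2]
    exact (MulEquiv.isUnit_map (Matrix.kroneckerAlgEquiv (Fin n) (Fin 2) ℂ)).symm
  rw [h1, ← Matrix.mulVec_injective_iff_isUnit]
  have key := mulVec_kron_eq B (fun j => lam j)
  constructor
  · intro h
    by_contra hS
    apply h
    rw [← Matrix.coe_mulVecLin, ← LinearMap.ker_eq_bot, LinearMap.ker_eq_bot']
    intro w hw
    rw [Matrix.mulVecLin_apply] at hw
    have hw' : w = fun p : Fin n × Fin 2 => (![w (p.1, 0), w (p.1, 1)] : Fin 2 → ℂ) p.2 := by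
      funext p
      obtain ⟨i, k⟩ := p
      fin_cases k <;> rfl
    rw [hw'] at hw
    by_contra hw0
    apply hS
    refine ⟨fun i => w (i, 0), fun i => w (i, 1), ?_, ?_, ?_⟩
    · rintro ⟨h0, h1⟩
      apply hw0
      funext p
      obtain ⟨i, k⟩ := p
      fin_cases k
      · exact congrFun h0 i
      · exact congrFun h1 i
    · funext i
      have := key (fun i => w (i, 0)) (fun i => w (i, 1)) i 0
      rw [hw] at this
      exact this.symm
    · funext i
      have := key (fun i => w (i, 0)) (fun i => w (i, 1)) i 1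
      rw [hw] at this
      exact this.symm
  · rintro ⟨u, v, huv, e0, e1⟩ hinj
    apply huv
    have h0 : (∑ j, (B j - (lam j : ℂ) • (1 : Matrix (Fin n) (Fin n) ℂ)) ⊗ₖ pauli j) *ᵥ
      (fun p : Fin n × Fin 2 => (![u p.1, v p.1] : Fin 2 → ℂ) p.2) = 0 := by
      funext p
      obtain ⟨i, k⟩ := p
      rw [key]
      fin_cases k
      · exact congrFun e0 i
      · exact congrFun e1 i
    have h2 := @hinj _ 0 (by simpa using h0)
    refine ⟨?_, ?_⟩
    · funext i
      exact congrFun h2 (i, 0)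
    · funext i
      exact congrFun h2 (i, 1)

theorem sing_sub {ι : Type} [Fintype ι] [DecidableEq ι] (B : Fin 3 → Matrix ι ι ℂ)
    (t lam : Fin 3 → ℝ) :
    Sing (fun j => (t j : ℂ) • (1 : Matrix ι ι ℂ) - B j) lam ↔ Sing B (t - lam) := by
  unfold Sing
  refine exists_congr fun u => exists_congr fun v => and_congr Iff.rfl (and_congr ?_ ?_)
  · rw [← neg_eq_zero]
    refine Eq.congr ?_ rfl
    simp only [Matrix.sub_mulVec, Matrix.smul_mulVec, Matrix.one_mulVec, Pi.sub_apply,
      Complex.ofReal_sub]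
    module
  · rw [← neg_eq_zero]
    refine Eq.congr ?_ rfl
    simp only [Matrix.sub_mulVec, Matrix.smul_mulVec, Matrix.one_mulVec, Pi.sub_apply,
      Complex.ofReal_sub]
    module

theorem sing_sum {ι κ : Type} [Fintype ι] [Fintype κ] (B : Fin 3 → Matrix ι ι ℂ)
    (C : Fin 3 → Matrix κ κ ℂ) (lam : Fin 3 → ℝ) :
    Sing (fun j => Matrix.fromBlocks (B j) 0 0 (C j)) lam ↔ (Sing B lam ∨ Sing C lam) := by
  constructor
  · rintro ⟨u, v, huv, e0, e1⟩
    simp only [Matrix.fromBlocks_mulVec, Matrix.zero_mulVec, add_zero, zero_add] at e0 e1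
    by_cases h : u ∘ Sum.inl = 0 ∧ v ∘ Sum.inl = 0
    · right
      refine ⟨u ∘ Sum.inr, v ∘ Sum.inr, ?_, ?_, ?_⟩
      · rintro ⟨h0, h1⟩
        apply huv
        refine ⟨?_, ?_⟩
        · funext i
          rcases i with i | i
          · exact congrFun h.1 i
          · exact congrFun h0 i
        · funext i
          rcases i with i | i
          · exact congrFun h.2 i
          · exact congrFun h1 i
      · funext i
        exact congrFun e0 (Sum.inr i)
      · funext i
        exact congrFun e1 (Sum.inr i)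
    · left
      refine ⟨u ∘ Sum.inl, v ∘ Sum.inl, h, ?_, ?_⟩
      · funext i
        exact congrFun e0 (Sum.inl i)
      · funext i
        exact congrFun e1 (Sum.inl i)
  · rintro (⟨u, v, huv, e0, e1⟩ | ⟨u, v, huv, e0, e1⟩)
    · refine ⟨Sum.elim u 0, Sum.elim v 0, ?_, ?_, ?_⟩
      · rintro ⟨h0, h1⟩
        apply huv
        exact ⟨funext fun i => congrFun h0 (Sum.inl i), funext fun i => congrFun h1 (Sum.inl i)⟩
      · funext i
        simp only [Matrix.fromBlocks_mulVec, Matrix.zero_mulVec, add_zero, zero_add,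
          Sum.elim_comp_inl, Sum.elim_comp_inr, Matrix.mulVec_zero]
        rcases i with i | i
        · exact congrFun e0 i
        · simp
      · funext i
        simp only [Matrix.fromBlocks_mulVec, Matrix.zero_mulVec, add_zero, zero_add,
          Sum.elim_comp_inl, Sum.elim_comp_inr, Matrix.mulVec_zero]
        rcases i with i | i
        · exact congrFun e1 i
        · simp
    · refine ⟨Sum.elim 0 u, Sum.elim 0 v, ?_, ?_, ?_⟩
      · rintro ⟨h0, h1⟩
        apply huv
        exact ⟨funext fun i => congrFun h0 (Sum.inr i), funext fun i => congrFun h1 (Sum.inr i)⟩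
      · funext i
        simp only [Matrix.fromBlocks_mulVec, Matrix.zero_mulVec, add_zero, zero_add,
          Sum.elim_comp_inl, Sum.elim_comp_inr, Matrix.mulVec_zero]
        rcases i with i | i
        · simp
        · exact congrFun e0 i
      · funext i
        simp only [Matrix.fromBlocks_mulVec, Matrix.zero_mulVec, add_zero, zero_add,
          Sum.elim_comp_inl, Sum.elim_comp_inr, Matrix.mulVec_zero]
        rcases i with i | i
        · simp
        · exact congrFun e1 i

theorem sing_reindex {ι κ : Type} [Fintype ι] [Fintype κ] (e : ι ≃ κ) (B : Fin 3 → Matrix ι ι ℂ)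
    (lam : Fin 3 → ℝ) :
    Sing (fun j => (B j).submatrix e.symm e.symm) lam ↔ Sing B lam := by
  constructor
  · rintro ⟨u, v, huv, e0, e1⟩
    simp only [Matrix.submatrix_mulVec_equiv, Equiv.symm_symm] at e0 e1
    refine ⟨u ∘ e, v ∘ e, ?_, ?_, ?_⟩
    · rintro ⟨h0, h1⟩
      apply huv
      refine ⟨?_, ?_⟩
      · funext i
        have := congrFun h0 (e.symm i)
        simpa using this
      · funext i
        have := congrFun h1 (e.symm i)
        simpa using this
    · funext i
      have := congrFun e0 (e i)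
      simpa using this
    · funext i
      have := congrFun e1 (e i)
      simpa using this
  · rintro ⟨u, v, huv, e0, e1⟩
    refine ⟨u ∘ e.symm, v ∘ e.symm, ?_, ?_, ?_⟩
    · rintro ⟨h0, h1⟩
      apply huv
      refine ⟨?_, ?_⟩
      · funext i
        have := congrFun h0 (e i)
        simpa using this
      · funext i
        have := congrFun h1 (e i)
        simpa using this
    · simp only [Matrix.submatrix_mulVec_equiv, Equiv.symm_symm]
      have h1 : ∀ w : ι → ℂ, (w ∘ e.symm) ∘ e = w := fun w => by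
        funext i
        simp
      rw [h1, h1]
      funext i
      have := congrFun e0 (e.symm i)
      simpa using this
    · simp only [Matrix.submatrix_mulVec_equiv, Equiv.symm_symm]
      have h1 : ∀ w : ι → ℂ, (w ∘ e.symm) ∘ e = w := fun w => by
        funext i
        simp
      rw [h1, h1]
      funext i
      have := congrFun e1 (e.symm i)
      simpa using this

end Pool.Agent.Q168.CS
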