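import Pool.Agent.Q168.CS.Defs

/-!
# The Clifford algebra `Cl(3)` and the Pauli matrices
-/

set_option autoImplicit false
set_option linter.unusedSimpArgs false

namespace Pool.Agent.Q168.CS

open Matrix
open scoped TensorProduct

theorem sumSq_apply (d : ℕ) (v : Fin d → ℂ) : sumSq d v = ∑ j, v j ^ 2 := by
  simp [sumSq, QuadraticMap.weightedSumSquares_apply, sq]

theorem gen_sq (d : ℕ) (j : Fin d) : gen d j * gen d j = 1 := by
  unfold gen
  rw [CliffordAlgebra.ι_sq_scalar, sumSq_apply]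
  have : ∑ i, (Pi.single j (1 : ℂ) : Fin d → ℂ) i ^ 2 = 1 := by
    rw [Finset.sum_eq_single j]
    · simp
    · intro b _ hb
      simp [Pi.single_eq_of_ne hb]
    · simp
  rw [this, map_one]

theorem gen_anti (d : ℕ) {j k : Fin d} (h : j ≠ k) : gen d j * gen d k = -(gen d k * gen d j) := by
  have h1 : (gen d j + gen d k) * (gen d j + gen d k) = 2 := by
    have : gen d j + gen d k = CliffordAlgebra.ι (sumSq d) (Pi.single j 1 + Pi.single k 1) := by
      unfold gen
      rw [map_add]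
    rw [this, CliffordAlgebra.ι_sq_scalar, sumSq_apply]
    have h2 : ∑ i, (Pi.single j (1 : ℂ) + Pi.single k 1 : Fin d → ℂ) i ^ 2 = 2 := by
      have h3 : ∀ i, (Pi.single j (1 : ℂ) + Pi.single k 1 : Fin d → ℂ) i ^ 2 =
          (if i = j then 1 else 0) + (if i = k then 1 else 0) := by
        intro i
        rw [Pi.add_apply, Pi.single_apply, Pi.single_apply]
        by_cases h1 : i = j
        · subst h1
          simp [h]
        · by_cases h2 : i = k
          · subst h2
            simp [h1]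
          · simp [h1, h2]
      rw [Finset.sum_congr rfl (fun i _ => h3 i), Finset.sum_add_distrib]
      simp
      norm_num
    rw [h2, map_ofNat]
  have h2 : (gen d j + gen d k) * (gen d j + gen d k) =
      gen d j * gen d j + gen d k * gen d k + (gen d j * gen d k + gen d k * gen d j) := by
    noncomm_ring
  rw [h1, gen_sq, gen_sq] at h2
  have h3 : gen d j * gen d k + gen d k * gen d j = 0 := by
    have : (2 : Cl d) = 1 + 1 := by norm_num
    rw [this] at h2
    exact (left_eq_add.1 h2)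
  exact eq_neg_of_add_eq_zero_left h3

/-- the Pauli matrices -/
def pauli : Fin 3 → Matrix (Fin 2) (Fin 2) ℂ :=
  ![!![0, 1; 1, 0], !![0, -Complex.I; Complex.I, 0], !![1, 0; 0, -1]]

/-- the representation of `Cl(3)` by Pauli matrices -/
noncomputable def toPauli : Cl 3 →ₐ[ℂ] Matrix (Fin 2) (Fin 2) ℂ :=
  CliffordAlgebra.lift (sumSq 3)
    ⟨{ toFun := fun v => ∑ j, v j • pauli j
       map_add' := fun v w => by simp only [Pi.add_apply, add_smul, Finset.sum_add_distrib]
       map_smul' := fun c v => by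
        simp only [Pi.smul_apply, smul_eq_mul, mul_smul, Finset.smul_sum, RingHom.id_apply] }, by
      intro v
      rw [sumSq_apply]
      ext i j
      fin_cases i <;> fin_cases j <;>
        simp [pauli, Fin.sum_univ_three, Matrix.mul_apply, Fin.sum_univ_two, Matrix.algebraMap_matrix_apply] <;>
        ring_nf <;> simp [Complex.I_sq]⟩

theorem toPauli_gen (j : Fin 3) : toPauli (gen 3 j) = pauli j := by
  unfold toPauli gen
  rw [CliffordAlgebra.lift_ι_apply]
  show ∑ i, (Pi.single j (1 : ℂ) : Fin 3 → ℂ) i • pauli i = pauli j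
  rw [Finset.sum_eq_single j]
  · simp
  · intro b _ hb
    simp [Pi.single_eq_of_ne hb]
  · simp

/-- the central element `-i e_1 e_2 e_3` -/
noncomputable def om : Cl 3 := (-Complex.I) • (gen 3 0 * gen 3 1 * gen 3 2)

/-! normal form rules for products of generators -/

theorem r00 : gen 3 0 * gen 3 0 = 1 := gen_sq 3 0
theorem r11 : gen 3 1 * gen 3 1 = 1 := gen_sq 3 1
theorem r22 : gen 3 2 * gen 3 2 = 1 := gen_sq 3 2
theorem r10 : gen 3 1 * gen 3 0 = -(gen 3 0 * gen 3 1) := gen_anti 3 (by decide)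
theorem r20 : gen 3 2 * gen 3 0 = -(gen 3 0 * gen 3 2) := gen_anti 3 (by decide)
theorem r21 : gen 3 2 * gen 3 1 = -(gen 3 1 * gen 3 2) := gen_anti 3 (by decide)
theorem r00' (x : Cl 3) : gen 3 0 * (gen 3 0 * x) = x := by rw [← mul_assoc, r00, one_mul]
theorem r11' (x : Cl 3) : gen 3 1 * (gen 3 1 * x) = x := by rw [← mul_assoc, r11, one_mul]
theorem r22' (x : Cl 3) : gen 3 2 * (gen 3 2 * x) = x := by rw [← mul_assoc, r22, one_mul]
theorem r10' (x : Cl 3) : gen 3 1 * (gen 3 0 * x) = -(gen 3 0 * (gen 3 1 * x)) := by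
  rw [← mul_assoc, r10, neg_mul, mul_assoc]
theorem r20' (x : Cl 3) : gen 3 2 * (gen 3 0 * x) = -(gen 3 0 * (gen 3 2 * x)) := by
  rw [← mul_assoc, r20, neg_mul, mul_assoc]
theorem r21' (x : Cl 3) : gen 3 2 * (gen 3 1 * x) = -(gen 3 1 * (gen 3 2 * x)) := by
  rw [← mul_assoc, r21, neg_mul, mul_assoc]

theorem om_sq : om * om = 1 := by
  unfold om
  simp only [smul_mul_assoc, mul_smul_comm, smul_smul, mul_assoc, r00, r11, r22, r10, r20, r21, r00',
    r11', r22', r10', r20', r21', mul_neg, neg_neg, mul_one, smul_neg]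
  simp

theorem om_comm (j : Fin 3) : om * gen 3 j = gen 3 j * om := by
  unfold om
  fin_cases j <;>
    simp [smul_mul_assoc, mul_smul_comm, smul_smul, mul_assoc, r00, r11, r22, r10, r20, r21, r00',
      r11', r22', r10', r20', r21', mul_neg, neg_neg, mul_one, smul_neg]

/-- images of the Pauli matrices in `Cl(3)` -/
noncomputable def sg (j : Fin 3) : Cl 3 := om * gen 3 j

theorem sg0 : sg 0 = (-Complex.I) • (gen 3 1 * gen 3 2) := by
  unfold sg om
  simp only [smul_mul_assoc, mul_smul_comm, smul_smul, mul_assoc, r00, r11, r22, r10, r20, r21, r00',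
    r11', r22', r10', r20', r21', mul_neg, neg_neg, mul_one, smul_neg]

theorem sg1 : sg 1 = Complex.I • (gen 3 0 * gen 3 2) := by
  unfold sg om
  simp only [smul_mul_assoc, mul_assoc, r11', r21, mul_neg, smul_neg, neg_smul,
    neg_mul, neg_neg]

theorem sg2 : sg 2 = (-Complex.I) • (gen 3 0 * gen 3 1) := by
  unfold sg om
  simp only [smul_mul_assoc, mul_smul_comm, smul_smul, mul_assoc, r00, r11, r22, r10, r20, r21, r00',
    r11', r22', r10', r20', r21', mul_neg, neg_neg, mul_one, smul_neg]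

theorem sg_mul (j k : Fin 3) : sg j * sg k =
    (![![1, Complex.I • sg 2, (-Complex.I) • sg 1], ![(-Complex.I) • sg 2, 1, Complex.I • sg 0],
      ![Complex.I • sg 1, (-Complex.I) • sg 0, 1]] : Fin 3 → Fin 3 → Cl 3) j k := by
  fin_cases j <;> fin_cases k <;>
    simp [sg0, sg1, sg2, smul_mul_assoc, mul_smul_comm, smul_smul, mul_assoc, r00, r11, r22, r10, r20,
      r21, r00', r11', r22', r10', r20', r21', mul_neg, neg_neg, mul_one, smul_neg]

/-- the linear map `M_2(ℂ) → Cl(3)` sending the Pauli matrices to `sg` -/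
noncomputable def fromPauliLin : Matrix (Fin 2) (Fin 2) ℂ →ₗ[ℂ] Cl 3 where
  toFun := fun X => ((X 0 0 + X 1 1) / 2) • (1 : Cl 3) + ((X 0 1 + X 1 0) / 2) • sg 0 +
        (Complex.I * (X 0 1 - X 1 0) / 2) • sg 1 + ((X 0 0 - X 1 1) / 2) • sg 2
  map_add' := fun X Y => by
        simp only [Matrix.add_apply]
        module
  map_smul' := fun c X => by
        simp only [Matrix.smul_apply, smul_eq_mul, RingHom.id_apply]
        module

theorem fromPauliLin_apply (X : Matrix (Fin 2) (Fin 2) ℂ) : fromPauliLin X =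
    ((X 0 0 + X 1 1) / 2) • (1 : Cl 3) + ((X 0 1 + X 1 0) / 2) • sg 0 +
        (Complex.I * (X 0 1 - X 1 0) / 2) • sg 1 + ((X 0 0 - X 1 1) / 2) • sg 2 := rfl

theorem sg_mul00 : sg 0 * sg 0 = 1 := sg_mul 0 0
theorem sg_mul01 : sg 0 * sg 1 = Complex.I • sg 2 := sg_mul 0 1
theorem sg_mul02 : sg 0 * sg 2 = (-Complex.I) • sg 1 := sg_mul 0 2
theorem sg_mul10 : sg 1 * sg 0 = (-Complex.I) • sg 2 := sg_mul 1 0
theorem sg_mul11 : sg 1 * sg 1 = 1 := sg_mul 1 1
theorem sg_mul12 : sg 1 * sg 2 = Complex.I • sg 0 := sg_mul 1 2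
theorem sg_mul20 : sg 2 * sg 0 = Complex.I • sg 1 := sg_mul 2 0
theorem sg_mul21 : sg 2 * sg 1 = (-Complex.I) • sg 0 := sg_mul 2 1
theorem sg_mul22 : sg 2 * sg 2 = 1 := sg_mul 2 2

/-- the algebra homomorphism `M_2(ℂ) → Cl(3)` sending the Pauli matrices to `sg` -/
noncomputable def fromPauli : Matrix (Fin 2) (Fin 2) ℂ →ₐ[ℂ] Cl 3 :=
  AlgHom.ofLinearMap fromPauliLin
    (by
      rw [fromPauliLin_apply]
      simp)
    (by
      intro X Y
      rw [fromPauliLin_apply, fromPauliLin_apply, fromPauliLin_apply]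
      simp only [Matrix.mul_apply, Fin.sum_univ_two, mul_add, add_mul, smul_mul_smul_comm, sg_mul00,
        sg_mul01, sg_mul02, sg_mul10, sg_mul11, sg_mul12, sg_mul20, sg_mul21, sg_mul22, mul_one,
        one_mul, smul_smul]
      match_scalars
      · linear_combination (-(X 0 1 - X 1 0) * (Y 0 1 - Y 1 0) / 4) * Complex.I_sq
      · linear_combination ((X 0 0 - X 1 1) * (Y 0 1 - Y 1 0) / 4 -
          (X 0 1 - X 1 0) * (Y 0 0 - Y 1 1) / 4) * Complex.I_sq
      · ring
      · linear_combination ((X 0 1 - X 1 0) * (Y 0 1 + Y 1 0) / 4 -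
          (X 0 1 + X 1 0) * (Y 0 1 - Y 1 0) / 4) * Complex.I_sq)

theorem fromPauli_pauli (j : Fin 3) : fromPauli (pauli j) = sg j := by
  show fromPauliLin (pauli j) = sg j
  rw [fromPauliLin_apply]
  fin_cases j
  · simp [pauli]
  · simp [pauli]
    rw [show Complex.I * (-Complex.I - Complex.I) / 2 = 1 by linear_combination -Complex.I_sq,
      one_smul]
  · simp [pauli]

theorem om_isUnit : IsUnit om := ⟨⟨om, om, om_sq, om_sq⟩, rfl⟩

section

variable {n : ℕ}

/-- `M ↦ ∑ (A_j - λ_j) ⊗ σ_j` as an element of `M_n(ℂ) ⊗ M_2(ℂ)` -/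
noncomputable def pauliLoc (A : Fin 3 → Matrix (Fin n) (Fin n) ℂ)
    (lam : EuclideanSpace ℝ (Fin 3)) :
    Matrix (Fin n) (Fin n) ℂ ⊗[ℂ] Matrix (Fin 2) (Fin 2) ℂ :=
  ∑ j, (A j - (lam j : ℂ) • (1 : Matrix (Fin n) (Fin n) ℂ)) ⊗ₜ[ℂ] pauli j

theorem isUnit_localizer_iff (A : Fin 3 → Matrix (Fin n) (Fin n) ℂ)
    (lam : EuclideanSpace ℝ (Fin 3)) : IsUnit (localizer A lam) ↔ IsUnit (pauliLoc A lam) := by
  constructor
  · intro h
    have h1 := h.map (Algebra.TensorProduct.map (AlgHom.id ℂ (Matrix (Fin n) (Fin n) ℂ)) toPauli)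
    have h2 : Algebra.TensorProduct.map (AlgHom.id ℂ (Matrix (Fin n) (Fin n) ℂ)) toPauli
        (localizer A lam) = pauliLoc A lam := by
      unfold localizer pauliLoc
      rw [map_sum]
      refine Finset.sum_congr rfl fun j _ => ?_
      rw [Algebra.TensorProduct.map_tmul, toPauli_gen]
      rfl
    rwa [h2] at h1
  · intro h
    have h1 := h.map (Algebra.TensorProduct.map (AlgHom.id ℂ (Matrix (Fin n) (Fin n) ℂ)) fromPauli)
    have h2 : Algebra.TensorProduct.map (AlgHom.id ℂ (Matrix (Fin n) (Fin n) ℂ)) fromPauli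
        (pauliLoc A lam) = ((1 : Matrix (Fin n) (Fin n) ℂ) ⊗ₜ[ℂ] om) * localizer A lam := by
      unfold localizer pauliLoc
      rw [map_sum, Finset.mul_sum]
      refine Finset.sum_congr rfl fun j _ => ?_
      rw [Algebra.TensorProduct.map_tmul, fromPauli_pauli, Algebra.TensorProduct.tmul_mul_tmul,
        one_mul]
      rfl
    rw [h2] at h1
    have h3 : IsUnit ((1 : Matrix (Fin n) (Fin n) ℂ) ⊗ₜ[ℂ] om) := by
      have := om_isUnit.map (Algebra.TensorProduct.includeRight :
        Cl 3 →ₐ[ℂ] Matrix (Fin n) (Fin n) ℂ ⊗[ℂ] Cl 3)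
      rwa [Algebra.TensorProduct.includeRight_apply] at this
    obtain ⟨u, hu⟩ := h3
    rw [← hu] at h1
    exact (Units.isUnit_units_mul u _).1 h1

end

end Pool.Agent.Q168.CS
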